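import Pool.Agent.X304.Cp.Main

/-!
# Full and reduced `L^p` crossed products by finite groups

For a covariant representation `(v, π)` on `E = L^p(X, μ)` and a vector `x` of `E` let `ξ_x` be the
vector `h ↦ v_h⁻¹ x` of `ℓ^p(G, E)`.  The regular covariant representation attached to `π` maps
`ξ_x` to `ξ_y` with `y = (v ⋉ π)(a) x`, and `‖ξ_x‖ = |G|^{1/p} ‖x‖`.  Hence the norm of
`(v ⋉ π)(a)` is at most the norm of the integrated form of `a` in the regular representation.
Conversely `ℓ^p(G, L^p(X, μ))` is an `L^p` space of a σ-finite measure and the regular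
representation attached to a nondegenerate representation is nondegenerate.
-/

set_option autoImplicit false

open Pool.Agent.X304.Cp
open scoped ENNReal

universe u v

/-- For every `p` in `[1, ∞)`, every finite group `G` and every isometric action of `G` on a complex
Banach algebra `A`, the norm of `F^p(G, A, α)` and the norm of `F^p_r(G, A, α)` agree on
`C(G, A, α)`. -/
theorem Pool.Agent.Results.MP_579095_an.FullEqReduced.result :
    ∀ (p : ℝ≥0∞) [Fact (1 ≤ p)] (hp : p ≠ ∞) (G : Type u) [Group G] [Fintype G]
      (A : Type v) [NonUnitalNormedRing A] [NormedSpace ℂ A] (α : IsomAction G A) (a : G → A),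
      fullNorm p α a = reducedNorm p hp α a :=
  fun p _ hp _ _ _ _ _ _ α a => full_eq_reduced p hp α a
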